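import Pool.Agent.Lib.MP_669c56_pr.Final

/-!
# Light is not trapped by mirrors whose inclinations come from a generic sequence

Problem MP_669c56_pr, Q1 (partial result). `K` is the set of the mirror configurations with an
unbounded free component of the origin such that every non exceptional light ray from the origin is
bounded.
-/

set_option autoImplicit false

open Set Filter Topology ComplexConjugate

namespace Pool.Agent.Results.MP_669c56_pr.GenericInclinations

/-- The union of the mirrors. The mirror `i` (`i ∈ I`) is the segment from `a i` to `b i`. -/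
def mirrors (I : Set ℕ) (a b : ℕ → ℂ) : Set ℂ := ⋃ i ∈ I, segment ℝ (a i) (b i)

/-- A mirror configuration: a locally finite family of non degenerate segments with arbitrary
centres and lengths, each of them having one of the inclinations `θ 0, θ 1, ...`; two mirrors have
at most one common point; the origin is on no mirror, and the component of the origin in the
complement of the mirrors is unbounded. -/
structure Config (θ : ℕ → ℝ) (I : Set ℕ) (a b : ℕ → ℂ) : Prop where
  inclination : ∀ i ∈ I, ∃ (k : ℕ) (r : ℝ), r ≠ 0 ∧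
    b i - a i = (r : ℂ) * Complex.exp ((θ k : ℂ) * Complex.I)
  locallyFinite : ∀ R : ℝ, {i ∈ I | (segment ℝ (a i) (b i) ∩ Metric.ball 0 R).Nonempty}.Finite
  pairs : ∀ i ∈ I, ∀ j ∈ I, i ≠ j →
    (segment ℝ (a i) (b i) ∩ segment ℝ (a j) (b j)).Subsingleton
  zero_notMem : (0 : ℂ) ∉ mirrors I a b
  unbounded : ¬ Bornology.IsBounded (connectedComponentIn (mirrors I a b)ᶜ (0 : ℂ))

/-- `x 0 = 0`, the next `n` points `x 1, ..., x n` are the first `n` points of reflection of the
light ray from the origin at the angle `α`, and `d k` is the direction of the ray after `x k`. -/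
def LightPath (I : Set ℕ) (a b : ℕ → ℂ) (α : ℝ) (n : ℕ) (x d : ℕ → ℂ) : Prop :=
  x 0 = 0 ∧ d 0 = Complex.exp ((α : ℂ) * Complex.I) ∧ ∀ k < n,
    (∃ t : ℝ, 0 < t ∧ x (k + 1) = x k + (t : ℂ) * d k ∧ x (k + 1) ∈ mirrors I a b ∧
      ∀ s : ℝ, 0 < s → s < t → x k + (s : ℂ) * d k ∉ mirrors I a b) ∧
    ∃ i ∈ I, x (k + 1) ∈ segment ℝ (a i) (b i) ∧
      d (k + 1) = (b i - a i) / conj (b i - a i) * conj (d k)

/-- The light ray at the angle `α` arrives at an end point of a mirror or at a common point of two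
mirrors. -/
def Exceptional (I : Set ℕ) (a b : ℕ → ℂ) (α : ℝ) : Prop :=
  ∃ (n : ℕ) (x d : ℕ → ℂ), LightPath I a b α n x d ∧
    ((∃ i ∈ I, x n = a i ∨ x n = b i) ∨
      ∃ i ∈ I, ∃ j ∈ I, i ≠ j ∧ x n ∈ segment ℝ (a i) (b i) ∧ x n ∈ segment ℝ (a j) (b j))

/-- The trajectory of the light ray at the angle `α` is unbounded: for every `R` it reaches, after
finitely many reflections, a point at distance at least `R` from the origin. -/
def UnboundedRay (I : Set ℕ) (a b : ℕ → ℂ) (α : ℝ) : Prop :=
  ∀ R : ℝ, ∃ (n : ℕ) (x d : ℕ → ℂ), LightPath I a b α n x d ∧ ∃ t : ℝ, 0 ≤ t ∧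
    (∀ s : ℝ, 0 < s → s < t → x n + (s : ℂ) * d n ∉ mirrors I a b) ∧ R ≤ ‖x n + (t : ℂ) * d n‖

theorem mirrors_eq (I : Set ℕ) (a b : ℕ → ℂ) : mirrors I a b = Mirr.M a b I := rfl

theorem lightPath_iff (I : Set ℕ) (a b : ℕ → ℂ) (α : ℝ) (n : ℕ) (x d : ℕ → ℂ) :
    LightPath I a b α n x d ↔ Mirr.LP a b I 0 (Mirr.ev α) n x d := Iff.rfl

/-- There is a residual set `Θ` of sequences of inclinations, containing all sequences of rational
multiples of `π`, such that for every configuration with inclinations from a sequence in `Θ` a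
residual set of angles is non exceptional with unbounded ray (for rational inclinations: all angles
but countably many); in particular it is not true that all non exceptional rays are bounded. -/
theorem result : ∃ Θ : Set (ℕ → ℝ), Θ ∈ residual (ℕ → ℝ) ∧
    (∀ θ : ℕ → ℝ, (∀ k, ∃ q : ℚ, θ k = q * Real.pi) → θ ∈ Θ) ∧
    ∀ θ ∈ Θ, ∀ (I : Set ℕ) (a b : ℕ → ℂ), Config θ I a b →
      {α : ℝ | ¬ Exceptional I a b α ∧ UnboundedRay I a b α} ∈ residual ℝ ∧
      ((∀ k, ∃ q : ℚ, θ k = q * Real.pi) →
        {α : ℝ | ¬ (¬ Exceptional I a b α ∧ UnboundedRay I a b α)}.Countable) ∧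
      ¬ ∀ α : ℝ, ¬ Exceptional I a b α → ∃ x d : ℕ → ℂ,
        (∀ n, LightPath I a b α n x d) ∧ Bornology.IsBounded (Set.range x) := by
  refine ⟨Mirr.ThetaSet, Mirr.ThetaSet_residual, fun θ hθ => Or.inr hθ, ?_⟩
  intro θ hθ I a b hC
  have h1 := Mirr.final hθ I a b hC.inclination hC.locallyFinite hC.pairs hC.zero_notMem
    hC.unbounded
  refine ⟨h1, fun hrat => Mirr.final_rational hrat I a b hC.inclination hC.locallyFinite hC.pairs
    hC.zero_notMem hC.unbounded, fun hcon => ?_⟩
  obtain ⟨α, hα⟩ := (dense_of_mem_residual h1).nonempty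
  exact Mirr.not_trapped hα.1 hα.2 (hcon α hα.1)

end Pool.Agent.Results.MP_669c56_pr.GenericInclinations
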